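import Mathlib
import Pool.Agent.helper12.PE.Err

/-!
# Odd values of the partition function: definitions
-/

set_option autoImplicit false

open PowerSeries Finset

namespace Pool.Agent.helper7.OC

/-- The Hecke operator at an odd prime `ℓ` on power series with coefficients modulo 2. -/
noncomputable def TT (ℓ : ℕ) : (ZMod 2)⟦X⟧ →ₗ[ZMod 2] (ZMod 2)⟦X⟧ where
  toFun f := PowerSeries.mk fun n => coeff (ℓ * n) f + if ℓ ∣ n then coeff (n / ℓ) f else 0
  map_add' f g := by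
    ext n
    simp only [map_add, coeff_mk]
    split_ifs <;> ring
  map_smul' c f := by
    ext n
    simp only [coeff_smul, coeff_mk, smul_eq_mul, RingHom.id_apply]
    split_ifs <;> ring

lemma coeff_TT (ℓ n : ℕ) (f : (ZMod 2)⟦X⟧) :
    coeff n (TT ℓ f) = coeff (ℓ * n) f + if ℓ ∣ n then coeff (n / ℓ) f else 0 := by
  simp [TT]

/-- The number with the binary digits of `n` in even position. -/
def ev (n : ℕ) : ℕ := if n = 0 then 0 else n % 2 + 2 * ev (n / 4)
termination_by n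
decreasing_by omega

/-- The number with the binary digits of `n` in odd position. -/
def od (n : ℕ) : ℕ := if n = 0 then 0 else n / 2 % 2 + 2 * od (n / 4)
termination_by n
decreasing_by omega

lemma ev_eq (n : ℕ) : ev n = n % 2 + 2 * ev (n / 4) := by
  rcases Nat.eq_zero_or_pos n with rfl | h
  · simp [ev]
  · rw [ev, if_neg (by omega)]

lemma od_eq (n : ℕ) : od n = n / 2 % 2 + 2 * od (n / 4) := by
  rcases Nat.eq_zero_or_pos n with rfl | h
  · simp [od]
  · rw [od, if_neg (by omega)]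

/-- first weight -/
def dg (n : ℕ) : ℕ := ev n + od n

/-- second weight -/
def dh (n : ℕ) : ℕ := ev n + 2 * od n

/-- The Jacobi symbol `(ℓ | m)`, as a real number. -/
noncomputable def J (ℓ m : ℕ) : ℝ := (jacobiSym (ℓ : ℤ) m : ℝ)

/-- The sum of the symbols `(ℓ | m)` with weight `1 / ℓ`. -/
noncomputable def cs (P : Finset ℕ) (m : ℕ) : ℝ := ∑ ℓ ∈ P, J ℓ m / ℓ

/-- `∑ 1 / ℓ` -/
noncomputable def hs (P : Finset ℕ) : ℝ := ∑ ℓ ∈ P, 1 / (ℓ : ℝ)

/-- The primes `≡ 5 mod 8` in `(a, b]`. -/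
def P5 (a b : ℕ) : Finset ℕ := (Ioc a b).filter fun ℓ => ℓ.Prime ∧ ℓ % 8 = 5

/-- The primes in `(a, b]`. -/
def PA (a b : ℕ) : Finset ℕ := (Ioc a b).filter Nat.Prime

/-- A real completely multiplicative function modulo `q` with bounded sums. -/
structure RC (q : ℕ) (ψ : ℕ → ℝ) : Prop where
  one : ψ 1 = 1
  mul : ∀ m n, ψ (m * n) = ψ m * ψ n
  vals : ∀ n, ψ n = 0 ∨ ψ n = 1 ∨ ψ n = -1
  supp : ∀ n, ψ n ≠ 0 ↔ n.Coprime q
  sum : ∀ x : ℕ, |∑ n ∈ range (x + 1), ψ n| ≤ q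

/-- `ψ` as an arithmetic function. -/
noncomputable def toAF (ψ : ℕ → ℝ) : ArithmeticFunction ℝ := ⟨fun n => if n = 0 then 0 else ψ n, by simp⟩

/-- The principal character mod `q`. -/
noncomputable def prin (q : ℕ) : ℕ → ℝ := fun n => if n.Coprime q then 1 else 0

/-- Elementary symmetric sum of the values `f ℓ`, `ℓ ∈ L`. -/
noncomputable def esum (L : Finset ℕ) (K : ℕ) (f : ℕ → ℝ) : ℝ := ∑ T ∈ L.powersetCard K, ∏ ℓ ∈ T, f ℓ

end Pool.Agent.helper7.OC
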